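import Pool.Agent.Helper36.Alg.Defs
import Pool.Agent.Helper36.PinK.Defs

/-!
# Algorithms on graphs: the pinning number

The vertices are the numbers `0, ..., n-1`. A relation `R` is used only on the pairs `u < v`. Sets of
vertices are given by predicates `χ`, pairs `u < v` have the code `u * n + v`.
-/

set_option autoImplicit false

namespace Pool.Agent.Helper36.Alg

open Pool.Agent.Helper36.PT

/-- The symmetric relation of `R`. -/
def up (R : ℕ → ℕ → Prop) (u v : ℕ) : Prop := (u < v ∧ R u v) ∨ (v < u ∧ R v u)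

theorem up_symm (R : ℕ → ℕ → Prop) {u v : ℕ} (h : up R u v) : up R v u := h.elim Or.inr Or.inl

/-- The graph on `Fin n` whose edges are the pairs `u < v` with `R u v`. -/
def gr (n : ℕ) (R : ℕ → ℕ → Prop) : SimpleGraph (Fin n) where
  Adj u v := up R u v
  symm := ⟨fun _ _ h => up_symm R h⟩
  loopless := ⟨fun u h => h.elim (fun h => lt_irrefl _ h.1) (fun h => lt_irrefl _ h.1)⟩

open Classical in
/-- The pairs `u < v` with `R u v`. -/
noncomputable def pairs (n : ℕ) (R : ℕ → ℕ → Prop) : Finset (Sym2 (Fin n)) :=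
  Finset.univ.filter (fun e => ∃ u v : Fin n, u < v ∧ R u v ∧ e = s(u, v))

open Classical in
/-- The set of the vertices with `χ v`. -/
noncomputable def vset (n : ℕ) (χ : ℕ → Prop) : Finset (Fin n) :=
  Finset.univ.filter (fun v => χ v)

/-- The number of the vertices with `χ v`. -/
noncomputable def cardN (n : ℕ) (χ : ℕ → Prop) : ℕ := ∑ v ∈ Finset.range n, ind (χ v)

/-- the least prime number greater than `N` -/
noncomputable def np (N : ℕ) : ℕ := mu (2 * N + 3) (fun i => N < i ∧ Nat.Prime i)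

/-! ### Sparse sets of edges, given by a list of codes -/

open Classical in
/-- The set of edges with the codes in the list. -/
noncomputable def eset (n : ℕ) (L : List ℕ) : Finset (Sym2 (Fin n)) :=
  Finset.univ.filter (fun e => ∃ u v : Fin n, u < v ∧ (u * n + v : ℕ) ∈ L ∧ e = s(u, v))

/-- Left node number `l`: the edges of the list, and three more copies of the edge number `j`. -/
def mcode (L : List ℕ) (j l : ℕ) : ℕ := if l < L.length then L.getD l 0 else L.getD j 0

/-- First vector of the line `i` (left node `i / 4`). -/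
noncomputable def mA (i u : ℕ) : ℕ := ind (u = i / 4)

/-- Second vector of the line `i`: one of the four places at the ends of the edge. -/
noncomputable def mB (n : ℕ) (L : List ℕ) (j i u : ℕ) : ℕ :=
  ind (u = L.length + 3 + 2 * (if i / 2 % 2 = 0 then mcode L j (i / 4) / n
    else mcode L j (i / 4) % n) + i % 2)

/-- The test for sparseness: for each edge `j` of the list, the edges of the list and three more
copies of `j` can be matched to places, two at each vertex. -/
def sparseN (n : ℕ) (L : List ℕ) : Prop :=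
  ∀ j < L.length, solve (np (2 + 4 * (L.length + 3) + 2 * (4 * (L.length + 3)) ^ 2))
    (L.length + 3 + 2 * n) (4 * (L.length + 3)) mA (mB n L j) = 2 * (L.length + 3)

open Classical in
/-- A maximal sparse set of edges, found greedily. -/
noncomputable def rkL (n : ℕ) (R : ℕ → ℕ → Prop) : List ℕ :=
  recN [] (fun k L => if k / n < k % n ∧ R (k / n) (k % n) ∧ sparseN n (k :: L) then k :: L
    else L) (n * n)

/-- The rank. -/
noncomputable def rkN (n : ℕ) (R : ℕ → ℕ → Prop) : ℕ := (rkL n R).length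

/-! ### Connectivity -/

/-- The set of vertices (as a table) which can be reached from `u` inside `χ`. -/
noncomputable def reachN (n : ℕ) (R : ℕ → ℕ → Prop) (χ : ℕ → Prop) (u : ℕ) : List ℕ :=
  recN ((List.range n).map (fun w => ind (w = u)))
    (fun _ S => (List.range n).map (fun w =>
      ind (S.getD w 0 ≠ 0 ∨ (χ w ∧ ∃ z < n, S.getD z 0 ≠ 0 ∧ up R z w)))) n

/-- `v` can be reached from `u` inside `χ`. -/
def reachP (n : ℕ) (R : ℕ → ℕ → Prop) (χ : ℕ → Prop) (u v : ℕ) : Prop :=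
  (reachN n R χ u).getD v 0 ≠ 0

/-- The graph induced on `χ` is connected. -/
def connN (n : ℕ) (R : ℕ → ℕ → Prop) (χ : ℕ → Prop) : Prop :=
  (∃ u < n, χ u) ∧ ∀ u < n, ∀ v < n, χ u → χ v → reachP n R χ u v

/-- The graph induced on `χ` is 3-connected. -/
def threeN (n : ℕ) (R : ℕ → ℕ → Prop) (χ : ℕ → Prop) : Prop :=
  4 ≤ cardN n χ ∧ connN n R χ ∧
    ∀ s < n, ∀ t < n, χ s → χ t → connN n R (fun v => χ v ∧ v ≠ s ∧ v ≠ t)

/-- The graph induced on `χ` is redundantly rigid. -/
def rrN (n : ℕ) (R : ℕ → ℕ → Prop) (χ : ℕ → Prop) : Prop :=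
  rkN n (fun x y => R x y ∧ χ x ∧ χ y) + 3 = 2 * cardN n χ ∧
    ∀ u < n, ∀ v < n, (u < v ∧ R u v ∧ χ u ∧ χ v) →
      rkN n (fun x y => (R x y ∧ χ x ∧ χ y) ∧ ¬ (x = u ∧ y = v)) + 3 = 2 * cardN n χ

/-- The Jackson-Jordán condition. -/
def grN (n : ℕ) (R : ℕ → ℕ → Prop) (χ : ℕ → Prop) : Prop := threeN n R χ ∧ rrN n R χ

/-! ### Coloops, core, blocks -/

/-- `uv` (with `u < v`) is a coloop. -/
def coloopN (n : ℕ) (R : ℕ → ℕ → Prop) (u v : ℕ) : Prop :=
  u < v ∧ R u v ∧ rkN n (fun x y => R x y ∧ ¬ (x = u ∧ y = v)) < rkN n R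

/-- The core. -/
def coreN (n : ℕ) (R : ℕ → ℕ → Prop) (u v : ℕ) : Prop := R u v ∧ ¬ coloopN n R u v

/-- `u` and `v` are different vertices of the same block. -/
def sameN (n : ℕ) (R : ℕ → ℕ → Prop) (u v : ℕ) : Prop :=
  u ≠ v ∧ rkN n (fun x y => coreN n R x y ∨ (x = min u v ∧ y = max u v)) = rkN n (coreN n R)

/-- `w` is in the block of `u`, `v`. -/
def blkN (n : ℕ) (R : ℕ → ℕ → Prop) (u v w : ℕ) : Prop :=
  w = u ∨ w = v ∨ (sameN n R u w ∧ sameN n R v w)

/-- `k` is the code of a block: `k = u * n + v` where `u < v` are its two smallest elements. -/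
def isBlk (n : ℕ) (R : ℕ → ℕ → Prop) (k : ℕ) : Prop :=
  k / n < k % n ∧ sameN n R (k / n) (k % n) ∧
    ∀ w < k % n, w ≠ k / n → ¬ blkN n R (k / n) (k % n) w

/-- The number of elements of a block. -/
noncomputable def bcard (n : ℕ) (R : ℕ → ℕ → Prop) (k : ℕ) : ℕ :=
  cardN n (blkN n R (k / n) (k % n))

/-! ### The instance of linear matroid parity

Codes: elements of `Gen0`: a pair `uv` has the code `u * n + v` with `u < v`, a block with the code
`k` has the code `n ^ 2 + k`; elements of `Gen`: `g * (2 n ^ 2) + g'` and `4 n ^ 4 + (k * n + i)`;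
coordinates: `Gen0`, then `2 n ^ 2 + 2 (k * n + i) + b`, then `2 n ^ 2 + 2 n ^ 3 + 2 v + b`; lines:
`v * N + g` and `n * N + v` with `N = 4 n ^ 4 + n ^ 3`. -/

/-- number of codes of generators -/
def NG (n : ℕ) : ℕ := 4 * n ^ 4 + n ^ 3

/-- number of coordinates -/
def ND (n : ℕ) : ℕ := 2 * n ^ 2 + 2 * n ^ 3 + 2 * n

/-- `g` is the code of a coloop at `v` or of a block at `v`. -/
def At0N (n : ℕ) (R : ℕ → ℕ → Prop) (v g : ℕ) : Prop :=
  (g < n ^ 2 ∧ coloopN n R (g / n) (g % n) ∧ (v = g / n ∨ v = g % n)) ∨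
    (n ^ 2 ≤ g ∧ g < 2 * n ^ 2 ∧ isBlk n R (g - n ^ 2) ∧
      blkN n R ((g - n ^ 2) / n) ((g - n ^ 2) % n) v)

/-- `g` is the code of a generator at `v` with a nonzero vector. -/
def AtN (n : ℕ) (R : ℕ → ℕ → Prop) (v g : ℕ) : Prop :=
  (g < 4 * n ^ 4 ∧ At0N n R v (g / (2 * n ^ 2)) ∧ At0N n R v (g % (2 * n ^ 2)) ∧
      g / (2 * n ^ 2) ≠ g % (2 * n ^ 2)) ∨
    (4 * n ^ 4 ≤ g ∧ g < NG n ∧ isBlk n R ((g - 4 * n ^ 4) / n) ∧
      blkN n R ((g - 4 * n ^ 4) / n / n) ((g - 4 * n ^ 4) / n % n) v ∧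
      (g - 4 * n ^ 4) % n + 2 < bcard n R ((g - 4 * n ^ 4) / n))

/-- `l` is the code of a line for a vertex in `U`. -/
def lineN (n : ℕ) (R : ℕ → ℕ → Prop) (U : ℕ → Prop) (l : ℕ) : Prop :=
  (l < n * NG n ∧ U (l / NG n) ∧ AtN n R (l / NG n) (l % NG n)) ∨
    (n * NG n ≤ l ∧ l < n * NG n + n ∧ U (l - n * NG n))

open Classical in
/-- The list of the codes of the lines. -/
noncomputable def linesN (n : ℕ) (R : ℕ → ℕ → Prop) (U : ℕ → Prop) : List ℕ :=
  (List.range (n * NG n + n)).filter (fun l => dec (lineN n R U l))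

/-- The vector of a generator at `v`, modulo `p`. -/
noncomputable def gvN (p n v g u : ℕ) : ℕ :=
  if g < 4 * n ^ 4 then ind (u = g / (2 * n ^ 2)) + (p - 1) * ind (u = g % (2 * n ^ 2))
  else ind (u = 2 * n ^ 2 + 2 * (g - 4 * n ^ 4)) +
    v * ind (u = 2 * n ^ 2 + 2 * (g - 4 * n ^ 4) + 1)

/-- First vector of the line with code `l`. -/
noncomputable def vA (p n l u : ℕ) : ℕ :=
  if l < n * NG n then gvN p n (l / NG n) (l % NG n) u
  else ind (u = 2 * n ^ 2 + 2 * n ^ 3 + 2 * (l - n * NG n))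

/-- Second vector of the line with code `l`. -/
noncomputable def vB (n l u : ℕ) : ℕ :=
  if l < n * NG n then ind (u = 2 * n ^ 2 + 2 * n ^ 3 + 2 * (l / NG n)) +
    (l % NG n) * ind (u = 2 * n ^ 2 + 2 * n ^ 3 + 2 * (l / NG n) + 1)
  else ind (u = 2 * n ^ 2 + 2 * n ^ 3 + 2 * (l - n * NG n) + 1)

/-- The prime number. -/
noncomputable def prN (n m : ℕ) : ℕ := np (2 + m + 2 * m ^ 2 + NG n + n)

/-- Twice the parity number of the instance for the vertices in `U`. -/
noncomputable def parN (n : ℕ) (R : ℕ → ℕ → Prop) (U : ℕ → Prop) : ℕ :=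
  solve (prN n (linesN n R U).length) (ND n) (linesN n R U).length
    (fun i u => vA (prN n (linesN n R U).length) n ((linesN n R U).getD i 0) u)
    (fun i u => vB n ((linesN n R U).getD i 0) u)

/-! ### Ends and the greedy set -/

/-- The component of `w` after deletion of `a` and `b`. -/
def compN (n : ℕ) (R : ℕ → ℕ → Prop) (a b w : ℕ) : ℕ → Prop :=
  reachP n R (fun v => v ≠ a ∧ v ≠ b) w

/-- The component of `w` after deletion of `a`, `b` is an end with the attachments `a`, `b`. -/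
def endN (n : ℕ) (R : ℕ → ℕ → Prop) (a b w : ℕ) : Prop :=
  a ≠ b ∧ w ≠ a ∧ w ≠ b ∧ (∃ z < n, compN n R a b w z ∧ up R z a) ∧
    (∃ z < n, compN n R a b w z ∧ up R z b) ∧
    grN n (fun x y => R x y ∨ (x = min a b ∧ y = max a b))
      (fun v => compN n R a b w v ∨ v = a ∨ v = b)

open Classical in
/-- The greedy set of representatives of the ends (as a table). -/
noncomputable def p0N (n : ℕ) (R : ℕ → ℕ → Prop) : List ℕ :=
  recN ((List.range n).map (fun _ => 0)) (fun k S =>
    if endN n R (k / n / n) (k / n % n) (k % n) ∧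
      (∀ z < n, compN n R (k / n / n) (k / n % n) (k % n) z → S.getD z 0 = 0) then
      S.set (k % n) 1 else S) (n ^ 3)

/-! ### The pinning number -/

/-- Some set with three elements pins. -/
def threeSet (n : ℕ) (R : ℕ → ℕ → Prop) : Prop :=
  ∃ u < n, ∃ v < n, ∃ w < n, (u < v ∧ v < w) ∧
    grN n (fun x y => R x y ∨ (x = u ∧ y = v) ∨ (x = u ∧ y = w) ∨ (x = v ∧ y = w))
      (fun _ => True)

/-- The vertices outside of the greedy set. -/
def uN (n : ℕ) (R : ℕ → ℕ → Prop) (v : ℕ) : Prop := (p0N n R).getD v 0 = 0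

open Classical in
/-- The pinning number. -/
noncomputable def pinN (n : ℕ) (R : ℕ → ℕ → Prop) : ℕ :=
  if n ≤ 3 then n else if threeSet n R then 3 else
    max 4 (n + cardN n (uN n R) - parN n R (uN n R) / 2)

end Pool.Agent.Helper36.Alg
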