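import Pool.Agent.Helper36.PT.Defs

/-!
# Algorithms: the rank of a matrix over `ℤ/p`, and linear matroid parity by local search

Everything is a function of natural numbers and lists of natural numbers.
-/

set_option autoImplicit false

namespace Pool.Agent.Helper36.Alg

open Pool.Agent.Helper36.PT

/-! ### Rank -/

/-- Position of the first nonzero entry of the table. -/
noncomputable def rkPos (n m : ℕ) (M : List ℕ) : ℕ := mu (n * m) (fun k => M.getD k 0 ≠ 0)

/-- The table after one elimination step with the pivot at the position `k`: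
`M'[u,v] = M[u,v] M[i,c] - M[u,c] M[i,v]`. -/
def rkElim (p n m k : ℕ) (M : List ℕ) : List ℕ :=
  (List.range (n * m)).map (fun t => (M.getD t 0 * M.getD k 0 +
    (p - 1) * (M.getD (t / m * m + k % m) 0 * M.getD (k / m * m + t % m) 0)) % p)

open Classical in
/-- One step of the computation of the rank: the state is (number of pivots, table). -/
noncomputable def rkStep (p n m : ℕ) (s : ℕ × List ℕ) : ℕ × List ℕ :=
  if rkPos n m s.2 < n * m then (s.1 + 1, rkElim p n m (rkPos n m s.2) s.2) else s

/-- The rank of the `n × m` matrix with the entries `f i j` modulo `p`. -/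
noncomputable def rankF (p n m : ℕ) (f : ℕ → ℕ → ℕ) : ℕ :=
  (recN ((0 : ℕ), (List.range (n * m)).map (fun t => f (t / m) (t % m) % (p - 1 + 1)))
    (fun _ s => rkStep (p - 1 + 1) n m s) n).1

/-! ### Linear matroid parity -/

/-- The entry `(u,v)` of the matrix `T(x)`. -/
def tent (p m : ℕ) (A B : ℕ → ℕ → ℕ) (x : List ℕ) (u v : ℕ) : ℕ :=
  ∑ i ∈ Finset.range m, x.getD i 0 * (A i u * B i v + (p - 1) * (B i u * A i v))

/-- The rank of `T(x)`. -/
noncomputable def trk (p D m : ℕ) (A B : ℕ → ℕ → ℕ) (x : List ℕ) : ℕ :=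
  rankF p D D (tent p m A B x)

/-- The entries of `[T(x) | a_i b_i]`. -/
def ent1 (p D m : ℕ) (A B : ℕ → ℕ → ℕ) (x : List ℕ) (i u v : ℕ) : ℕ :=
  if v < D then tent p m A B x u v else if v = D then A i u else B i u

/-- The line `i` has type one. -/
def isOne (p D m : ℕ) (A B : ℕ → ℕ → ℕ) (x : List ℕ) (i : ℕ) : Prop :=
  rankF p D (D + 2) (ent1 p D m A B x i) = trk p D m A B x + 1

/-- The entries of the bordered matrix. -/
def ent2 (p D m : ℕ) (A B : ℕ → ℕ → ℕ) (x : List ℕ) (i k u v : ℕ) : ℕ :=
  if u < D then (if v < D then tent p m A B x u v else if v = D then A k u else B k u)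
  else if v < D then (if u = D then A i v else B i v) else 0

/-- The lines `i` and `k` are adjacent. -/
def isAdj (p D m : ℕ) (A B : ℕ → ℕ → ℕ) (x : List ℕ) (i k : ℕ) : Prop :=
  rankF p (D + 2) (D + 2) (ent2 p D m A B x i k) = trk p D m A B x + 3

/-- The potential. -/
noncomputable def potN (p D m : ℕ) (A B : ℕ → ℕ → ℕ) (x : List ℕ) : ℕ :=
  (trk p D m A B x * (m + 1) + ∑ i ∈ Finset.range m, ind (isOne p D m A B x i)) * (m ^ 2 + 1) +
    ∑ i ∈ Finset.range m, ∑ k ∈ Finset.range m,
      ind (isOne p D m A B x i ∧ isOne p D m A B x k ∧ isAdj p D m A B x i k)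

/-- Change one coordinate: `c` codes the index `c / p` and the new value `c % p`. -/
def upd1 (p c : ℕ) (x : List ℕ) : List ℕ := x.set (c / p) (c % p)

/-- Change at most three coordinates. -/
def cand (p m c : ℕ) (x : List ℕ) : List ℕ :=
  upd1 p (c % (m * p)) (upd1 p (c / (m * p) % (m * p)) (upd1 p (c / (m * p) / (m * p)) x))

/-- The number of the first change of at most three coordinates that increases the potential. -/
noncomputable def best (p D m : ℕ) (A B : ℕ → ℕ → ℕ) (x : List ℕ) : ℕ :=
  mu ((m * p) ^ 3) (fun c => potN p D m A B x < potN p D m A B (cand p m c x))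

open Classical in
/-- One step of the local search. -/
noncomputable def lsStep (p D m : ℕ) (A B : ℕ → ℕ → ℕ) (x : List ℕ) : List ℕ :=
  if best p D m A B x < (m * p) ^ 3 then cand p m (best p D m A B x) x else x

/-- An upper bound for the potential. -/
def potMax (D m : ℕ) : ℕ := (D * (m + 1) + m) * (m ^ 2 + 1) + m ^ 2

/-- The result of the local search. -/
noncomputable def lsRun (p D m : ℕ) (A B : ℕ → ℕ → ℕ) : List ℕ :=
  recN (List.replicate m 0) (fun _ x => lsStep p D m A B x) (potMax D m + 1)

/-- Twice the parity number, computed by local search. -/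
noncomputable def solve (p D m : ℕ) (A B : ℕ → ℕ → ℕ) : ℕ := trk p D m A B (lsRun p D m A B)

end Pool.Agent.Helper36.Alg
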