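import Pool.Agent.Helper36.Alg.Graph
import Pool.Agent.Helper36.PinK.Main
import Pool.Agent.Helper25.GA.Conn
import Pool.Agent.Helper25.GA.GR
import Pool.Agent.Helper50.GA.Greedy
import Pool.Agent.Helper21.GA.GA11

/-! # GA-14: the pinning number

Author: helper50.
-/

set_option autoImplicit false

namespace Pool.Agent.Helper36.Alg

open Finset Pool.Agent.Helper36.PT
open Pool.Agent.Helper36.Pin (Sparse rk edges nbr ThreeConn RedRigid GR completeOn Pins pin IsEnd
  Forced Complete coloops core blocks fill Gen0 Gen Coord Line Blk At0 At lines)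

private theorem vset_true (n : ℕ) : vset n (fun _ => True) = Finset.univ := by
  unfold vset
  simp

private theorem gr_three {n : ℕ} (R : ℕ → ℕ → Prop) {u v w : Fin n} (huv : u < v) (hvw : v < w) :
    gr n (fun x y => R x y ∨ (x = u ∧ y = v) ∨ (x = u ∧ y = w) ∨ (x = v ∧ y = w)) =
      gr n R ⊔ completeOn ({u, v, w} : Finset (Fin n)) := by
  ext x y
  rw [SimpleGraph.sup_adj]
  unfold gr completeOn up
  simp only [Finset.mem_insert, Finset.mem_singleton, ne_eq, Fin.ext_iff]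
  have h1 : (u : ℕ) < v := huv
  have h2 : (v : ℕ) < w := hvw
  constructor
  · rintro (⟨h, h3 | h3⟩ | ⟨h, h3 | h3⟩)
    · exact Or.inl (Or.inl ⟨h, h3⟩)
    · right; omega
    · exact Or.inl (Or.inr ⟨h, h3⟩)
    · right; omega
  · rintro ((⟨h, h3⟩ | ⟨h, h3⟩) | h)
    · exact Or.inl ⟨h, Or.inl h3⟩
    · exact Or.inr ⟨h, Or.inl h3⟩
    · by_cases hxy : (x : ℕ) < y
      · exact Or.inl ⟨hxy, Or.inr (by omega)⟩
      · exact Or.inr ⟨by omega, Or.inr (by omega)⟩

theorem threeSet_iff {n : ℕ} (hn : 4 ≤ n) (R : ℕ → ℕ → Prop) :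
    threeSet n R ↔ ∃ P : Finset (Fin n), P.card = 3 ∧ Pins (gr n R) P := by
  constructor
  · rintro ⟨u, hu, v, hv, w, hw, ⟨huv, hvw⟩, h⟩
    rw [grN_iff, vset_true] at h
    have h1 := gr_three R (u := ⟨u, hu⟩) (v := ⟨v, hv⟩) (w := ⟨w, hw⟩) huv hvw
    have h2 : ({⟨u, hu⟩, ⟨v, hv⟩, ⟨w, hw⟩} : Finset (Fin n)).card = 3 := by
      rw [Finset.card_eq_three]
      refine ⟨⟨u, hu⟩, ⟨v, hv⟩, ⟨w, hw⟩, ?_, ?_, ?_, rfl⟩ <;>
        simp only [ne_eq, Fin.mk.injEq] <;> omega
    refine ⟨_, h2, Or.inr ⟨h2.ge, ?_⟩⟩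
    rw [← h1]
    exact h
  · rintro ⟨P, hP, h⟩
    rcases h with h | ⟨_, h⟩
    · rw [h, Finset.card_univ, Fintype.card_fin] at hP
      omega
    · let e := P.orderEmbOfFin hP
      have h01 : e 0 < e 1 := e.lt_iff_lt.2 (by decide)
      have h12 : e 1 < e 2 := e.lt_iff_lt.2 (by decide)
      have hPe : P = {e 0, e 1, e 2} := by
        ext x
        have hr : x ∈ P ↔ x ∈ Set.range e := by
          rw [Finset.range_orderEmbOfFin]
          exact Iff.rfl
        rw [hr, Set.mem_range]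
        simp only [Finset.mem_insert, Finset.mem_singleton]
        constructor
        · rintro ⟨i, rfl⟩
          fin_cases i
          · exact Or.inl rfl
          · exact Or.inr (Or.inl rfl)
          · exact Or.inr (Or.inr rfl)
        · rintro (h | h | h)
          · exact ⟨0, h.symm⟩
          · exact ⟨1, h.symm⟩
          · exact ⟨2, h.symm⟩
      refine ⟨e 0, (e 0).2, e 1, (e 1).2, e 2, (e 2).2, ⟨h01, h12⟩, ?_⟩
      rw [grN_iff, vset_true, gr_three R h01 h12, ← hPe]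
      exact h

theorem pinN_eq (n : ℕ) (R : ℕ → ℕ → Prop) : pinN n R = pin (gr n R) := by
  classical
  unfold pinN
  by_cases hn : n ≤ 3
  · rw [if_pos hn, Pin.pin_small _ (by rw [Fintype.card_fin]; exact hn), Fintype.card_fin]
  have hn4 : 4 ≤ n := by omega
  rw [if_neg hn]
  by_cases h3 : threeSet n R
  · rw [if_pos h3]
    exact (Pin.pin_eq_three _ (by rw [Fintype.card_fin]; exact hn4)
      ((threeSet_iff hn4 R).1 h3)).symm
  rw [if_neg h3]
  rw [threeSet_iff hn4] at h3
  obtain ⟨p, hp, t, c, ht, hc, hpar⟩ := parN_eq n R (uN n R)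
  have hcompl : (vset n (fun v => (p0N n R).getD v 0 ≠ 0))ᶜ = vset n (uN n R) := by
    unfold vset uN
    ext v
    simp
  have hmain := PinK.pin_parity (gr n R) (by rw [Fintype.card_fin]; exact hn4) h3 _
    (complete_p0N n R) t c ht hc
  rw [hmain, hcompl, Fintype.card_fin, ← cardN_eq, hpar]
  congr 2
  omega

end Pool.Agent.Helper36.Alg
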