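import Pool.Agent.Helper36.Alg.FinalOf
import Pool.Agent.Helper36.AL68.PolyPin
import Pool.Agent.Helper36.Alg.PinNEq

/-!
# The pinning number is computable in polynomial time on Turing machines
-/

set_option autoImplicit false

namespace Pool.Agent.Helper36.Alg

open Pool.Agent.Helper36.PT
open Pool.Agent.Helper36.Pin (pin)

/-- The pinning number (in its combinatorial form) is computable in polynomial time. -/
theorem pin_polytime :
    Nonempty (Turing.TM2ComputableInPolyTime encodeGraph Computability.encodeNat
      (fun x : ℕ × List (ℕ × ℕ) => pin (graphOf x.1 x.2))) :=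
  pin_polytime_of (fun hn hR => polyTime_pinN hn hR) pinN_eq

end Pool.Agent.Helper36.Alg
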