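import Pool.Agent.Helper36.Alg.Input
import Pool.Agent.Helper36.Pin.Defs

/-!
# The pinning number is computable in polynomial time on Turing machines
-/

set_option autoImplicit false

namespace Pool.Agent.Helper36.Alg

open Pool.Agent.Helper36.PT
open Pool.Agent.Helper36.Pin (pin)

theorem pin_polytime_of
    (hpoly : ∀ {α : Type} [Enc α] {n : α → ℕ} {R : α → ℕ → ℕ → Prop}, PolyTime n →
      PolyPred (fun q : (α × ℕ) × ℕ => R q.1.1 q.1.2 q.2) →
        PolyTime (fun a => pinN (n a) (R a)))
    (heq : ∀ n R, pinN n R = pin (gr n R)) :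
    Nonempty (Turing.TM2ComputableInPolyTime encodeGraph Computability.encodeNat
      (fun x : ℕ × List (ℕ × ℕ) => pin (graphOf x.1 x.2))) := by
  refine PolyTime.toTM' encodeGraph Computability.encodeNat _
    (fun w => ⟨Computability.encodeNat (pinN ((parse w.w).headD 0) (relP (parse w.w)))⟩) ?_ ?_
  · have hparse : PolyTime (fun w : Word => parse w.w) := polyTime_parse (by fun_prop)
    refine PolyTime.encodeNat (hpoly (PolyTime.headD' hparse 0) ?_)
    unfold relP
    have h : PolyTime (fun q : (Word × ℕ) × ℕ => parse q.1.1.w) :=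
      hparse.comp (PolyTime.fst.comp PolyTime.fst)
    have h' : PolyTime (fun q : ((Word × ℕ) × ℕ) × ℕ => parse q.1.1.1.w) :=
      h.comp PolyTime.fst
    refine PolyPred.exLt (h.length) ?_
    refine PolyPred.and (PolyPred.lt (by fun_prop) (h'.length)) ?_
    refine PolyPred.or (PolyPred.and ?_ ?_) (PolyPred.and ?_ ?_)
    · exact PolyPred.eq (PolyTime.getD h' (by fun_prop) 0) (by fun_prop)
    · exact PolyPred.eq (PolyTime.getD h' (by fun_prop) 0) (by fun_prop)
    · exact PolyPred.eq (PolyTime.getD h' (by fun_prop) 0) (by fun_prop)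
    · exact PolyPred.eq (PolyTime.getD h' (by fun_prop) 0) (by fun_prop)
  · rintro ⟨n, l⟩
    show Word.mk _ = Word.mk _
    congr 1
    rw [parse_encodeGraph]
    show Computability.encodeNat (pinN n _) = Computability.encodeNat (pin (graphOf n l))
    rw [heq, gr_relP]

end Pool.Agent.Helper36.Alg
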