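import Pool.Agent.Helper68.PT.Core
import Pool.Agent.Helper36.Alg.Graph

/-!
# Input: the number of vertices and the list of edges
-/

set_option autoImplicit false

namespace Pool.Agent.Helper36.Alg

open Pool.Agent.Helper36.PT

/-- The number `n` in unary, followed by the letter `false`. -/
def unary (n : ℕ) : List Bool := List.replicate n true ++ [false]

/-- The code of a graph given by its number of vertices and the list of its edges. -/
def encodeGraph (x : ℕ × List (ℕ × ℕ)) : List Bool :=
  unary x.1 ++ x.2.flatMap (fun e => unary e.1 ++ unary e.2)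

/-- The graph with the vertices `0, ..., n-1` and the edges in the list `l` (loops, repetitions and
pairs with a number `≥ n` are ignored). -/
def graphOf (n : ℕ) (l : List (ℕ × ℕ)) : SimpleGraph (Fin n) where
  Adj u v := u ≠ v ∧ (((u : ℕ), (v : ℕ)) ∈ l ∨ ((v : ℕ), (u : ℕ)) ∈ l)
  symm := ⟨fun _ _ h => ⟨h.1.symm, h.2.symm⟩⟩
  loopless := ⟨fun _ h => h.1 rfl⟩

/-- one step of reading: the state is (current number, numbers read) -/
def parseStep (s : ℕ × List ℕ) (c : Bool) : ℕ × List ℕ :=
  if c = true then (s.1 + 1, s.2) else (0, s.1 :: s.2)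

/-- The list of the numbers in the code. -/
def parse (w : List Bool) : List ℕ := (w.foldl parseStep (0, [])).2.reverse

/-- The edge relation of the list of numbers. -/
def relP (ns : List ℕ) (u v : ℕ) : Prop :=
  ∃ i < ns.length, 2 * i + 2 < ns.length ∧
    ((ns.getD (2 * i + 1) 0 = u ∧ ns.getD (2 * i + 2) 0 = v) ∨
      (ns.getD (2 * i + 1) 0 = v ∧ ns.getD (2 * i + 2) 0 = u))

theorem foldl_replicate (k c : ℕ) (acc : List ℕ) :
    (List.replicate k true).foldl parseStep (c, acc) = (c + k, acc) := by
  induction k generalizing c with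
  | zero => rfl
  | succ k ih =>
    rw [List.replicate_succ, List.foldl_cons]
    have : parseStep (c, acc) true = (c + 1, acc) := by simp [parseStep]
    rw [this, ih]
    congr 1
    omega

theorem foldl_unary (k : ℕ) (acc : List ℕ) :
    (unary k).foldl parseStep (0, acc) = (0, k :: acc) := by
  unfold unary
  rw [List.foldl_append, foldl_replicate]
  simp [parseStep]

theorem foldl_edges (l : List (ℕ × ℕ)) (acc : List ℕ) :
    (l.flatMap (fun e => unary e.1 ++ unary e.2)).foldl parseStep (0, acc) =
      (0, (l.flatMap (fun e => [e.1, e.2])).reverse ++ acc) := by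
  induction l generalizing acc with
  | nil => rfl
  | cons e l ih =>
    rw [List.flatMap_cons, List.foldl_append, List.foldl_append, foldl_unary, foldl_unary, ih,
      List.flatMap_cons]
    simp

theorem parse_encodeGraph (x : ℕ × List (ℕ × ℕ)) :
    parse (encodeGraph x) = x.1 :: x.2.flatMap (fun e => [e.1, e.2]) := by
  unfold parse encodeGraph
  rw [List.foldl_append, foldl_unary, foldl_edges]
  simp

theorem encodeGraph_injective : Function.Injective encodeGraph := by
  have key : ∀ l l' : List (ℕ × ℕ), l.flatMap (fun e => [e.1, e.2]) =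
      l'.flatMap (fun e => [e.1, e.2]) → l = l' := by
    intro l
    induction l with
    | nil =>
      intro l' h
      rcases l' with _ | ⟨e, l'⟩
      · rfl
      · simp at h
    | cons e l ih =>
      intro l' h
      rcases l' with _ | ⟨e', l'⟩
      · simp at h
      · simp only [List.flatMap_cons, List.cons_append, List.nil_append, List.cons.injEq] at h
        obtain ⟨h1, h2, h3⟩ := h
        rw [ih l' h3]
        congr 1
        exact Prod.ext h1 h2
  intro x y h
  have h1 := congrArg parse h
  rw [parse_encodeGraph, parse_encodeGraph, List.cons.injEq] at h1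
  exact Prod.ext h1.1 (key _ _ h1.2)

theorem getD_flat (l : List (ℕ × ℕ)) : ∀ i < l.length,
    (l.flatMap (fun e => [e.1, e.2])).getD (2 * i) 0 = (l.getD i (0, 0)).1 ∧
      (l.flatMap (fun e => [e.1, e.2])).getD (2 * i + 1) 0 = (l.getD i (0, 0)).2 := by
  induction l with
  | nil => intro i hi; simp at hi
  | cons e l ih =>
    intro i hi
    rcases i with _ | i
    · simp
    · have h := ih i (by simpa using hi)
      have e1 : 2 * (i + 1) = 2 * i + 1 + 1 := by omega
      rw [e1]
      simp only [List.flatMap_cons, List.cons_append, List.nil_append, List.getD_cons_succ]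
      exact h

theorem length_flat (l : List (ℕ × ℕ)) :
    (l.flatMap (fun e => [e.1, e.2])).length = 2 * l.length := by
  induction l with
  | nil => rfl
  | cons e l ih =>
    rw [List.flatMap_cons, List.length_append, ih]
    simp only [List.length_cons, List.length_nil]
    omega

theorem relP_iff (n : ℕ) (l : List (ℕ × ℕ)) (u v : ℕ) :
    relP (n :: l.flatMap (fun e => [e.1, e.2])) u v ↔ (u, v) ∈ l ∨ (v, u) ∈ l := by
  unfold relP
  rw [List.length_cons, length_flat]
  have hmem : ∀ x : ℕ × ℕ, x ∈ l ↔ ∃ i < l.length, l.getD i (0, 0) = x := by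
    intro x
    rw [List.mem_iff_getElem]
    constructor
    · rintro ⟨i, hi, rfl⟩
      exact ⟨i, hi, by rw [List.getD_eq_getElem _ _ hi]⟩
    · rintro ⟨i, hi, rfl⟩
      exact ⟨i, hi, by rw [List.getD_eq_getElem _ _ hi]⟩
  constructor
  · rintro ⟨i, _, hi, h⟩
    have hi' : i < l.length := by omega
    obtain ⟨h1, h2⟩ := getD_flat l i hi'
    simp only [List.getD_cons_succ] at h
    rw [h1, h2] at h
    rcases h with ⟨h3, h4⟩ | ⟨h3, h4⟩
    · exact Or.inl ((hmem _).2 ⟨i, hi', Prod.ext h3 h4⟩)
    · exact Or.inr ((hmem _).2 ⟨i, hi', Prod.ext h3 h4⟩)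
  · intro h
    rcases h with h | h
    · obtain ⟨i, hi, h⟩ := (hmem _).1 h
      obtain ⟨h1, h2⟩ := getD_flat l i hi
      refine ⟨i, by omega, by omega, Or.inl ?_⟩
      simp only [List.getD_cons_succ]
      rw [h1, h2, h]
      exact ⟨rfl, rfl⟩
    · obtain ⟨i, hi, h⟩ := (hmem _).1 h
      obtain ⟨h1, h2⟩ := getD_flat l i hi
      refine ⟨i, by omega, by omega, Or.inr ?_⟩
      simp only [List.getD_cons_succ]
      rw [h1, h2, h]
      exact ⟨rfl, rfl⟩

theorem gr_relP (n : ℕ) (l : List (ℕ × ℕ)) :
    gr n (relP (n :: l.flatMap (fun e => [e.1, e.2]))) = graphOf n l := by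
  ext u v
  show up _ _ _ ↔ u ≠ v ∧ _
  unfold up
  rw [relP_iff, relP_iff]
  have h1 : (u ≠ v) ↔ ((u : ℕ) < v ∨ (v : ℕ) < u) := by
    rw [ne_eq, Fin.ext_iff]
    omega
  rw [h1]
  tauto

theorem polyTime_parse {α : Type} [Enc α] {f : α → List Bool} (hf : PolyTime f) :
    PolyTime (fun a => parse (f a)) := by
  unfold parse
  refine PolyTime.reverse (PolyTime.snd.comp (PolyTime.foldl hf (by fun_prop) ?_ ?_))
  · unfold parseStep
    refine PolyTime.ite (by fun_prop) (by fun_prop) (by fun_prop)
  · refine ⟨fun a => 10 * (esz (f a) + 1) ^ 2, ?_, ?_⟩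
    · have h := hf.bdd
      exact (Bdd.const 10).mul ((h.add (Bdd.const 1)).pow 2)
    · intro a i
      have key : ∀ w : List Bool, (w.foldl parseStep (0, [])).1 ≤ w.length ∧
          (w.foldl parseStep (0, [])).2.length ≤ w.length ∧
          ∀ t ∈ (w.foldl parseStep (0, [])).2, t ≤ w.length := by
        intro w
        induction w using List.reverseRecOn with
        | nil => simp
        | append_singleton w c ih =>
          obtain ⟨h1, h2, h3⟩ := ih
          rw [List.foldl_append, List.foldl_cons, List.foldl_nil]
          rcases c with _ | _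
          · simp only [parseStep, Bool.false_eq_true, if_false, List.length_append,
              List.length_cons, List.length_nil]
            refine ⟨by omega, by omega, ?_⟩
            intro t ht
            rw [List.mem_cons] at ht
            rcases ht with rfl | ht
            · omega
            · have := h3 t ht
              omega
          · simp only [parseStep, if_true, List.length_append, List.length_cons, List.length_nil]
            refine ⟨by omega, by omega, ?_⟩
            intro t ht
            have := h3 t ht
            omega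
      obtain ⟨h1, h2, h3⟩ := key ((f a).take i)
      have hlen : ((f a).take i).length ≤ esz (f a) := by
        refine le_trans ?_ (length_le_esz (f a))
        rw [List.length_take]
        exact min_le_right _ _
      set s := ((f a).take i).foldl parseStep (0, []) with hs
      have e1 : esz s = 2 * esz s.1 + 1 + esz s.2 := esz_pair s.1 s.2
      have e2 : esz s.2 ≤ s.2.length * (2 * esz (f a) + 1) := by
        refine esz_list_le (fun t ht => ?_)
        rw [esz_nat]
        exact (h3 t ht).trans hlen
      have e3 : s.2.length * (2 * esz (f a) + 1) ≤ esz (f a) * (2 * esz (f a) + 1) :=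
        Nat.mul_le_mul_right _ (h2.trans hlen)
      rw [e1, esz_nat]
      show 2 * s.1 + 1 + esz s.2 ≤ 10 * (esz (f a) + 1) ^ 2
      nlinarith

end Pool.Agent.Helper36.Alg
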